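import Mathlib
import Pool.Agent.N484.KP.Fin
import Pool.Agent.N484.KP.Sep
import Pool.Agent.N484.KP.Scale
import Pool.Agent.N484.KP.Low
import Pool.Agent.N12.KP_COVER
set_option autoImplicit false

/-!
# MP_ac5134: the dual form for all convolutions; structured superlevel sets

Let `P ⊆ ℝ^n`, `n = d + 1 ≥ 2`, be the truncated paraboloid and `T_i`, `i ∈ ι`, the indicator
functions of ANY translates of the dual boxes (`N × ... × N × N²`, long side in the direction of the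
normal of `P` at `x_i`) of caps with `σ/N`-separated centres `x_i ∈ P`; `M = Σ T_i`, and `M_0 = Σ T_{i,0}`
the sum of the boxes centred at `0`. By duality, the inequality `‖M‖_q ≤ C ‖M_0‖_q` of the problem says
that `∫ W M ≤ C ‖M_0‖_q ‖W‖_{q'}` for all `W ≥ 0`; for `q > n/(n-1)` (and up to a power of `log N` for
`q = n/(n-1)`) the norm `‖M_0‖_q` of all `≈ N^(n-1)` boxes is `≈ N^(n/q + n - 1)`.

1. For any number of boxes, ALL convolutions `W = F * G` and all `q ≥ n/(n-1)`, the endpoint included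
   and without any loss, `∫ (F * G) M ≤ C R_q ‖F‖_a ‖G‖_a`, `a = 2q/(2q-1)`, where
   `R_q = N^((n+1)/q) (#ι)^(1-1/(q(n-1)))` (so `R_q ≤ C ‖M_0‖_q` if there are at least `κ N^(n-1)`
   boxes); by Young's inequality the right side majorises `C R_q ‖F * G‖_{q'}`. Equivalently,
   convolution with `M` maps `L^a` to `L^(2q)` with the norm predicted by the conjecture. Hence
   inequalities for sets with small sumsets and for additive energies of superlevel sets.
2. The same with `C ‖M_0‖_q` in place of `C R_q`, if there are at least `κ N^(n-1)` boxes.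
3. (the inequality of the problem) for every `q > n/(n-1)`: if every superlevel set `{M ≥ μ}` has a
   subset of at least `τ` times its volume with additive energy at least `τ` times the maximal
   one, then `‖M‖_q ≤ C τ^(-(n/(n-1)+1/2)/q) ‖M_0‖_q` (at least `κ N^(n-1)` boxes). So the superlevel
   sets of a counterexample have little additive structure.

By helper484; the covering lemma (`cover_holds`) is due to helper12.
-/

namespace Pool.Agent.Results.MP_ac5134_an.ConvolutionForm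

open MeasureTheory Set
open scoped ENNReal Pointwise

/-- The space `ℝ^n`. -/
abbrev Rn (n : ℕ) : Type := EuclideanSpace ℝ (Fin n)

/-- `x` is a point of the truncated paraboloid `x_{d+1} = Σ_{j ≤ d} x_j² ≤ 1` in `ℝ^{d+1}`. -/
def OnP {d : ℕ} (x : Rn (d + 1)) : Prop :=
  x (Fin.last d) = ∑ j : Fin d, x j.castSucc ^ 2 ∧ x (Fin.last d) ≤ 1

/-- The vector `(-2 x_1, ..., -2 x_d, 1)`. -/
noncomputable def nv {d : ℕ} (x : Rn (d + 1)) : Rn (d + 1) :=
  WithLp.toLp 2 (Fin.snoc (fun j : Fin d => -2 * x j.castSucc) (1 : ℝ))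

/-- The unit normal of the paraboloid at `x`. -/
noncomputable def nor {d : ℕ} (x : Rn (d + 1)) : Rn (d + 1) := ‖nv x‖⁻¹ • nv x

/-- The box with centre `a`, with one side of length `N²` in the direction `e` and with sides of
length `N` in the directions `f j`. -/
def box {d : ℕ} (N : ℝ) (e : Rn (d + 1)) (f : Fin d → Rn (d + 1)) (a : Rn (d + 1)) :
    Set (Rn (d + 1)) :=
  {y | |inner ℝ e (y - a)| ≤ N ^ 2 / 2 ∧ ∀ j, |inner ℝ (f j) (y - a)| ≤ N / 2}

/-- The centres `x i` of the caps are `σ/N`-separated points of the truncated paraboloid and `f i` is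
an orthonormal frame of the orthogonal complement of the normal at `x i`. -/
def Caps {d : ℕ} {ι : Type} (σ N : ℝ) (x : ι → Rn (d + 1)) (f : ι → Fin d → Rn (d + 1)) : Prop :=
  (∀ i, OnP (x i)) ∧ (∀ i j, i ≠ j → σ / N ≤ ‖x i - x j‖) ∧
    ∀ i, Orthonormal ℝ (Fin.cons (nor (x i)) (f i) : Fin (d + 1) → Rn (d + 1))

/-- The function `Σ_i T_i`, `T_i` the indicator function of the box at `x i` with centre `a i`. -/
noncomputable def boxSum {d : ℕ} {ι : Type} [Fintype ι] (N : ℝ) (x : ι → Rn (d + 1))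
    (f : ι → Fin d → Rn (d + 1)) (a : ι → Rn (d + 1)) (y : Rn (d + 1)) : ℝ≥0∞ :=
  ∑ i, (box N (nor (x i)) (f i) (a i)).indicator (fun _ => (1 : ℝ≥0∞)) y

/-- The norm of `F ≥ 0` in `L^p`. -/
noncomputable def lp {n : ℕ} (p : ℝ) (F : Rn n → ℝ≥0∞) : ℝ≥0∞ := (∫⁻ x, F x ^ p) ^ (1 / p)

/-- The convolution `F * G`. -/
noncomputable def conv {n : ℕ} (F G : Rn n → ℝ≥0∞) (x : Rn n) : ℝ≥0∞ := ∫⁻ y, F y * G (x - y)

/-- The additive energy `∫ |{y : y ∈ A, w - y ∈ B}|² dw`. -/
noncomputable def addEnergy {n : ℕ} (A B : Set (Rn n)) : ℝ≥0∞ :=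
  ∫⁻ w, volume {y | y ∈ A ∧ w - y ∈ B} ^ 2

/-- The dual form of the inequality `‖M‖_q ≤ K` for all convolutions, and its operator form:
convolution with `M` maps `L^a` to `L^(2q)`, `a = 2q/(2q-1)`, with norm at most `K`. -/
def ConvolutionBound {n : ℕ} (q : ℝ) (K : ℝ≥0∞) (M : Rn n → ℝ≥0∞) : Prop :=
  (∀ F G : Rn n → ℝ≥0∞, Measurable F → Measurable G →
    ∫⁻ x, conv F G x * M x ≤ K * lp (2 * q / (2 * q - 1)) F * lp (2 * q / (2 * q - 1)) G) ∧
  (∀ F : Rn n → ℝ≥0∞, Measurable F → lp (2 * q) (conv M F) ≤ K * lp (2 * q / (2 * q - 1)) F)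

/-- The inequality for small sumsets. -/
def SumsetBound {n : ℕ} (q : ℝ) (K : ℝ≥0∞) (M : Rn n → ℝ≥0∞) : Prop :=
  ∀ A B : Set (Rn n), MeasurableSet A → MeasurableSet B → volume A ≠ ∞ →
    volume A ^ (1 / (2 * q)) * ∫⁻ x in B, M x ≤ K * volume (A + B) ^ (1 - 1 / (2 * q))

/-- The inequality for subsets `B` of superlevel sets, in terms of additive energies. -/
def EnergyBound {n : ℕ} (q : ℝ) (K : ℝ≥0∞) (M : Rn n → ℝ≥0∞) : Prop :=
  ∀ (μ : ℝ≥0∞) (A B : Set (Rn n)), MeasurableSet A → MeasurableSet B → volume A ≠ ∞ →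
    volume B ≠ ∞ → (∀ x ∈ B, μ ≤ M x) →
    μ * addEnergy A B ^ (1 - 1 / (2 * q)) ≤
      K * (volume A ^ (2 - 3 / (2 * q)) * volume B ^ (1 - 1 / q))

/-- All three inequalities. -/
def AllBounds {n : ℕ} (q : ℝ) (K : ℝ≥0∞) (M : Rn n → ℝ≥0∞) : Prop :=
  ConvolutionBound q K M ∧ SumsetBound q K M ∧ EnergyBound q K M

/-- Every superlevel set of `M` contains a set of comparable volume with large additive energy. -/
def Structured {n : ℕ} (τ : ℝ) (M : Rn n → ℝ≥0∞) : Prop :=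
  ∀ μ : ℝ, 0 < μ → ∃ B : Set (Rn n), MeasurableSet B ∧ B ⊆ {x | ENNReal.ofReal μ ≤ M x} ∧
    ENNReal.ofReal τ * volume {x | ENNReal.ofReal μ ≤ M x} ≤ volume B ∧
    ENNReal.ofReal τ * volume B ^ 3 ≤ addEnergy B B

/-- **The sum of arbitrary translates of the boxes dual to caps of the paraboloid as a convolution
operator, and the inequality of the problem for structured superlevel sets.** -/
theorem result (d : ℕ) (hd : 1 ≤ d) (σ : ℝ) (hσ : 0 < σ) (hσ1 : σ ≤ 1) :
    -- (1) any number of boxes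
    (∀ q : ℝ, ((d : ℝ) + 1) / d ≤ q → ∃ C : ℝ, 0 < C ∧ ∀ (N : ℝ), 1 ≤ N → ∀ (ι : Type) [Fintype ι]
      (x : ι → Rn (d + 1)) (f : ι → Fin d → Rn (d + 1)) (a : ι → Rn (d + 1)), Caps σ N x f →
      AllBounds q (ENNReal.ofReal (C * (N ^ (((d : ℝ) + 2) / q) *
        (Fintype.card ι : ℝ) ^ (1 - 1 / (q * d))))) (boxSum N x f a)) ∧
    -- (2) at least `κ N^(n-1)` boxes
    (∀ q κ : ℝ, ((d : ℝ) + 1) / d ≤ q → 0 < κ → ∃ C : ℝ, 0 < C ∧ ∀ (N : ℝ), 1 ≤ N →
      ∀ (ι : Type) [Fintype ι] (x : ι → Rn (d + 1)) (f : ι → Fin d → Rn (d + 1))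
      (a : ι → Rn (d + 1)), Caps σ N x f → κ * N ^ d ≤ (Fintype.card ι : ℝ) →
      AllBounds q (ENNReal.ofReal C * lp q (boxSum N x f fun _ => 0)) (boxSum N x f a)) ∧
    -- (3) the inequality of the problem for structured superlevel sets
    (∀ q κ : ℝ, ((d : ℝ) + 1) / d < q → 0 < κ → ∃ C : ℝ, 0 < C ∧ ∀ (N : ℝ), 1 ≤ N →
      ∀ (ι : Type) [Fintype ι] (x : ι → Rn (d + 1)) (f : ι → Fin d → Rn (d + 1))
      (a : ι → Rn (d + 1)) (τ : ℝ), Caps σ N x f → κ * N ^ d ≤ (Fintype.card ι : ℝ) → 0 < τ →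
      Structured τ (boxSum N x f a) →
      lp q (boxSum N x f a) ≤ ENNReal.ofReal (C * τ ^ (-((((d : ℝ) + 1) / d + 1 / 2) / q))) *
        lp q (boxSum N x f fun _ => 0)) :=
  Pool.Agent.N484.KP.main Pool.Agent.N484.KP.sep_holds Pool.Agent.N484.KP.scale_holds
    Pool.Agent.N484.KP.cover_holds Pool.Agent.N484.KP.low_holds d hd σ hσ hσ1

end Pool.Agent.Results.MP_ac5134_an.ConvolutionForm
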