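import Pool.Agent.N249.KE.F
import Pool.Agent.Y254.EL.Dual3

set_option autoImplicit false

/-!
# MP_ac5134: equivalent forms of the conjecture

Work in `ℝ^n = ℝ^d × ℝ`, `n = d + 1 ≥ 3`, with its Euclidean norm (`Space d`), and let `P` be the
paraboloid `{(ω, |ω|²)}`, `|ω| ≤ 1`.  The box dual to the cap at `ω` is `box N (nor ω) f 0`: its long
side `N²` is in the direction of the unit normal `nor ω = (-2ω, 1)/√(1+4|ω|²)` and its other sides `N`
are in the directions of an arbitrary orthonormal frame `f` of the orthogonal complement.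

`WithLosses d` is the inequality of Q1 in `ℝ^n`: all systems of caps, all translates, all exponents
`p` in `[1, ∞]`, losses `N^ε`.  It is equivalent to each of the following statements.
1. `OneExponent d σ κ`: the same at the single exponent `p = n/(n-1)`, for the systems of at least
   `κ N^(n-1)` caps with `σ/N`-separated centres; here `σ` and `κ` are any two fixed small numbers.
2. `LossFree d`: the inequality WITHOUT any loss, for all `p > n/(n-1)`.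
3. `Subfamilies d`: the scale invariant inequality without loss
   `‖∑ T_θ‖_q^q ≤ C_q |T| (#Θ)^(q - 1/(n-1))` for ARBITRARY subfamilies `Θ` of the caps and all
   `q > n/(n-1)`.
4. `MaximalLoss n`: the Kakeya maximal conjecture in `ℝ^n`,
   `‖f*_δ‖_n ≤ C_ε δ^(-ε) ‖f‖_n`.
5. `MaximalFree n`: the maximal inequality without loss, `‖f*_δ‖_p ≤ C_p δ^(1 - n/p) ‖f‖_p` for all
   `1 < p < n`.

The families of the question are complete (all caps); to get from them to sparse families of tubes, a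
sparse family is completed by randomly sheared copies of itself: each cell of directions contains only
`O(log N)` of the tubes of a suitable union of `N^(n-1)/#Θ` sheared copies, and shears preserve volume.
-/

open MeasureTheory Set ENNReal NNReal Metric

namespace Pool.Agent.Results.MP_ac5134_an.EquivalentForms

/-- Euclidean space `ℝ^d`. -/
abbrev Vec (d : ℕ) : Type := EuclideanSpace ℝ (Fin d)

/-- Euclidean space `ℝ^{d+1}`, written as `ℝ^d × ℝ` with the Euclidean norm. -/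
abbrev Space (d : ℕ) : Type := WithLp 2 (Vec d × ℝ)

/-- The unit normal `(-2ω, 1)/√(1+4|ω|²)` of the paraboloid at the point over `ω`. -/
noncomputable def nor {d : ℕ} (ω : Vec d) : Space d :=
  (√(1 + ‖-(2 : ℝ) • ω‖ ^ 2))⁻¹ • WithLp.toLp 2 (-(2 : ℝ) • ω, (1:ℝ))

/-- The box with centre `a`, with one side of length `N²` in the direction `e` and with sides of length
`N` in the directions `f j`. -/
def box {d : ℕ} (N : ℝ) (e : Space d) (f : Fin d → Space d) (a : Space d) : Set (Space d) :=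
  {y | |inner ℝ e (y - a)| ≤ N ^ 2 / 2 ∧ ∀ j, |inner ℝ (f j) (y - a)| ≤ N / 2}

/-- The caps have centres `ω i` in the closed unit ball, `σ/N`-separated and at least `κ N^d` in
number, and `f i` is an orthonormal frame of the orthogonal complement of the normal at `ω i`. -/
def Caps {d : ℕ} {ι : Type} [Fintype ι] (σ κ N : ℝ) (ω : ι → Vec d) (f : ι → Fin d → Space d) : Prop :=
  (∀ i, ‖ω i‖ ≤ 1) ∧ (∀ i j, i ≠ j → σ / N ≤ ‖ω i - ω j‖) ∧ κ * N ^ d ≤ (Fintype.card ι : ℝ) ∧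
    ∀ i, Orthonormal ℝ (Fin.cons (nor (ω i)) (f i) : Fin (d + 1) → Space d)

/-- The sum of the indicators of the boxes of the caps with centres `a i`. -/
noncomputable def boxSum {d : ℕ} {ι : Type} [Fintype ι] (N : ℝ) (ω : ι → Vec d)
    (f : ι → Fin d → Space d) (a : ι → Space d) (y : Space d) : ℝ :=
  ∑ i, (box N (nor (ω i)) (f i) (a i)).indicator (fun _ => (1 : ℝ)) y

/-- The inequality of Q1 with the constant `C` at the exponent `p`, for the boxes with centres `a i`. -/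
def Ineq {d : ℕ} {ι : Type} [Fintype ι] (C N : ℝ) (p : ℝ≥0∞) (ω : ι → Vec d)
    (f : ι → Fin d → Space d) (a : ι → Space d) : Prop :=
  eLpNorm (boxSum N ω f a) p volume ≤ ENNReal.ofReal C * eLpNorm (boxSum N ω f 0) p volume

/-- Q1 in `ℝ^(d+1)`: all systems of caps, all translates, all exponents, losses `N^ε`. -/
def WithLosses (d : ℕ) : Prop := ∀ ε σ κ : ℝ, 0 < ε → 0 < σ → σ ≤ 1 → 0 < κ →
  ∃ C : ℝ, ∀ N : ℝ, 1 ≤ N → ∀ (ι : Type) [Fintype ι] (ω : ι → Vec d) (f : ι → Fin d → Space d),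
    Caps σ κ N ω f → ∀ (a : ι → Space d) (p : ℝ≥0∞), 1 ≤ p → Ineq (C * N ^ ε) N p ω f a

/-- Only the exponent `n/(n-1) = 1 + 1/d`, and fixed `σ`, `κ`. -/
def OneExponent (d : ℕ) (σ κ : ℝ) : Prop := ∀ ε : ℝ, 0 < ε →
  ∃ C : ℝ, ∀ N : ℝ, 1 ≤ N → ∀ (ι : Type) [Fintype ι] (ω : ι → Vec d) (f : ι → Fin d → Space d),
    Caps σ κ N ω f → ∀ a : ι → Space d,
      Ineq (C * N ^ ε) N (ENNReal.ofReal (1 + 1 / (d : ℝ))) ω f a

/-- No loss, exponents `p ≥ q`, for each `q > n/(n-1)`. -/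
def LossFree (d : ℕ) : Prop := ∀ q σ κ : ℝ, 1 + 1 / (d : ℝ) < q → 0 < σ → σ ≤ 1 → 0 < κ →
  ∃ C : ℝ, ∀ N : ℝ, 1 ≤ N → ∀ (ι : Type) [Fintype ι] (ω : ι → Vec d) (f : ι → Fin d → Space d),
    Caps σ κ N ω f → ∀ (a : ι → Space d) (p : ℝ≥0∞), ENNReal.ofReal q ≤ p → Ineq C N p ω f a

/-- No loss, all subfamilies: `‖∑ T‖_q^q ≤ C |T| (#T)^(q - 1/(n-1))` for each `q > n/(n-1)`. -/
def Subfamilies (d : ℕ) : Prop := ∀ q σ : ℝ, 1 + 1 / (d : ℝ) < q → 0 < σ → σ ≤ 1 →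
  ∃ C : ℝ, ∀ N : ℝ, 1 ≤ N → ∀ (ι : Type) [Fintype ι] (ω : ι → Vec d) (f : ι → Fin d → Space d),
    (∀ i, ‖ω i‖ ≤ 1) → (∀ i j, i ≠ j → σ / N ≤ ‖ω i - ω j‖) →
    (∀ i, Orthonormal ℝ (Fin.cons (nor (ω i)) (f i) : Fin (d + 1) → Space d)) →
    ∀ a : ι → Space d, ∫⁻ y, ‖boxSum N ω f a y‖ₑ ^ q ≤
      ENNReal.ofReal (C * (Fintype.card ι : ℝ) ^ (q - 1 / (d : ℝ)) * N ^ (d + 2))

/-- The closed tube of length `1` and radius `δ` with centre `a` and axis direction `e`. -/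
def tube {n : ℕ} (δ : ℝ) (a e : Vec n) : Set (Vec n) :=
  {y | |inner ℝ (y - a) e| ≤ 1 / 2 ∧ ‖(y - a) - (inner ℝ (y - a) e : ℝ) • e‖ ≤ δ}

/-- The Kakeya maximal function. -/
noncomputable def kakeyaMax {n : ℕ} (δ : ℝ) (f : Vec n → ℝ) (e : Vec n) : ℝ≥0∞ :=
  ⨆ a : Vec n, (volume (tube δ a e))⁻¹ * ∫⁻ y in tube δ a e, ‖f y‖ₑ

/-- The surface measure of the unit sphere. -/
noncomputable abbrev sph (n : ℕ) : Measure (sphere (0 : Vec n) 1) := (volume : Measure (Vec n)).toSphere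

/-- The Kakeya maximal conjecture in `ℝ^n`: critical exponent `n`, losses `δ^(-ε)`
(raised to the power `n`). -/
def MaximalLoss (n : ℕ) : Prop := ∀ ε : ℝ, 0 < ε → ∃ C : ℝ, ∀ δ : ℝ, 0 < δ → δ < 1 →
  ∀ f : Vec n → ℝ, AEMeasurable f volume →
    ∫⁻ e, kakeyaMax δ f (e : Vec n) ^ (n : ℝ) ∂(sph n) ≤
      ENNReal.ofReal (C * δ ^ (-ε)) * ∫⁻ y, ‖f y‖ₑ ^ (n : ℝ)

/-- `‖f*_δ‖_p ≤ C δ^(1 - n/p) ‖f‖_p` (raised to the power `p`). -/
def Strong (n : ℕ) (p : ℝ) : Prop := ∃ C : ℝ, ∀ δ : ℝ, 0 < δ → δ < 1 →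
  ∀ f : Vec n → ℝ, AEMeasurable f volume →
    ∫⁻ e, kakeyaMax δ f (e : Vec n) ^ p ∂(sph n) ≤
      ENNReal.ofReal (C * δ ^ (-((n : ℝ) - p))) * ∫⁻ y, ‖f y‖ₑ ^ p

/-- The maximal inequality without loss for all `1 < p < n`. -/
def MaximalFree (n : ℕ) : Prop := ∀ p : ℝ, 1 < p → p < n → Strong n p

/-! ### Proofs -/

/-- The weak type inequality: `|{f*_δ > l}| ≤ C (δ^(1 - n/p) ‖f‖_p / l)^q`, `q = (n - 1) p'`. -/
def Weak (n : ℕ) (p : ℝ) : Prop := ∃ C : ℝ, ∀ δ : ℝ, 0 < δ → δ < 1 →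
  ∀ f : Vec n → ℝ, AEMeasurable f volume → ∀ l : ℝ, 0 < l →
    sph n {e | ENNReal.ofReal l < kakeyaMax δ f (e : Vec n)} ≤
      ENNReal.ofReal (C * (δ ^ (1 - (n : ℝ) / p) / l) ^ (((n : ℝ) - 1) * (p / (p - 1)))) *
        (∫⁻ y, ‖f y‖ₑ ^ p) ^ (((n : ℝ) - 1) / (p - 1))


theorem tube_eq {n : ℕ} (δ : ℝ) (a e : Vec n) : tube δ a e = Pool.Agent.W46.KK.tube δ a e := rfl

theorem kakeyaMax_eq {n : ℕ} (δ : ℝ) (f : Vec n → ℝ) (e : Vec n) :
    kakeyaMax δ f e = Pool.Agent.W46.HM.kmax δ (fun y => ‖f y‖ₑ) e := rfl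

theorem exponents {d : ℕ} (hd : 1 ≤ d) {p : ℝ} (hp : 1 < p) :
    1 + (d : ℝ) / ((d : ℝ) / (p - 1)) = p := by
  have hd0 : (0 : ℝ) < d := by exact_mod_cast hd
  have : p - 1 ≠ 0 := by linarith
  field_simp
  ring

theorem strong_of {d : ℕ} (hd : 1 ≤ d) {p : ℝ} (hp : 1 < p)
    (h : Pool.Agent.Y244.HM.StrongP d ((d : ℝ) / (p - 1))) : Strong (d + 1) p := by
  obtain ⟨C, hC, h⟩ := h
  refine ⟨C, fun δ hδ hδ1 f hf => ?_⟩
  have h1 := h δ hδ hδ1 (fun y => ‖f y‖ₑ) hf.enorm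
  have hd0 : (0 : ℝ) < d := by exact_mod_cast hd
  have hp1 : p - 1 ≠ 0 := by linarith
  rw [exponents hd hp] at h1
  have e1 : -((d : ℝ) - (d : ℝ) / ((d : ℝ) / (p - 1))) = -(((d + 1 : ℕ) : ℝ) - p) := by
    push_cast
    field_simp
    ring
  rw [e1] at h1
  exact h1

theorem expo {d : ℕ} (hd : 1 ≤ d) {p : ℝ} (hp : 1 < p) {δ l : ℝ} (hδ : 0 < δ) (hl : 0 < l) :
    δ ^ (-(((d : ℝ) / (p - 1) - 1) * (d : ℝ))) * l ^ (-((d : ℝ) + (d : ℝ) / (p - 1))) =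
      (δ ^ (1 - ((d + 1 : ℕ) : ℝ) / p) / l) ^ ((((d + 1 : ℕ) : ℝ) - 1) * (p / (p - 1))) := by
  have hd0 : (0 : ℝ) < d := by exact_mod_cast hd
  have hp1 : p - 1 ≠ 0 := by linarith
  have hp0 : p ≠ 0 := by linarith
  have en : ((d + 1 : ℕ) : ℝ) - 1 = d := by push_cast; ring
  have e2 : (1 - ((d + 1 : ℕ) : ℝ) / p) * ((d : ℝ) * (p / (p - 1))) =
      -(((d : ℝ) / (p - 1) - 1) * (d : ℝ)) := by
    push_cast
    field_simp
    ring
  have e3 : (d : ℝ) * (p / (p - 1)) = (d : ℝ) + (d : ℝ) / (p - 1) := by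
    field_simp
    ring
  rw [en, Real.div_rpow (by positivity) hl.le, ← Real.rpow_mul hδ.le, Real.rpow_neg hl.le, e2, e3]
  exact (div_eq_mul_inv _ _).symm

theorem weak_of {d : ℕ} (hd : 1 ≤ d) {p : ℝ} (hp : 1 < p)
    (h : Pool.Agent.Y244.HM.WeakP d ((d : ℝ) / (p - 1))) : Weak (d + 1) p := by
  obtain ⟨C, hC, h⟩ := h
  refine ⟨C, fun δ hδ hδ1 f hf l hl => ?_⟩
  have h1 := h δ hδ hδ1 (fun y => ‖f y‖ₑ) hf.enorm l hl
  have hd0 : (0 : ℝ) < d := by exact_mod_cast hd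
  have hp1 : p - 1 ≠ 0 := by linarith
  have hp0 : p ≠ 0 := by linarith
  rw [exponents hd hp] at h1
  have en : ((d + 1 : ℕ) : ℝ) - 1 = d := by push_cast; ring
  have e1 := expo hd hp hδ hl
  rw [mul_assoc, e1] at h1
  rw [en] at h1 ⊢
  exact h1

theorem weakP_of {d : ℕ} (hd : 1 ≤ d) {p : ℝ} (hp : 1 < p) (h : Weak (d + 1) p) :
    Pool.Agent.Y244.HM.WeakP d ((d : ℝ) / (p - 1)) := by
  obtain ⟨C, h⟩ := h
  have hd0 : (0 : ℝ) < d := by exact_mod_cast hd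
  have hp1 : p - 1 ≠ 0 := by linarith
  have hp1' : 0 < p - 1 := by linarith
  have hp0 : p ≠ 0 := by linarith
  refine ⟨max C 1, by positivity, fun δ hδ hδ1 f hf l hl => ?_⟩
  rw [exponents hd hp]
  have hc0 : 0 < (d : ℝ) / (p - 1) := by positivity
  have hpos : 0 < max C 1 * δ ^ (-(((d : ℝ) / (p - 1) - 1) * (d : ℝ))) *
      l ^ (-((d : ℝ) + (d : ℝ) / (p - 1))) := by positivity
  rcases eq_or_ne (∫⁻ y, f y ^ p) ∞ with hI | hI
  · rw [hI, ENNReal.top_rpow_of_pos hc0, ENNReal.mul_top (by simpa using hpos)]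
    exact le_top
  · have hfin : ∀ᵐ y, f y < ∞ := by
      have h1 := ae_lt_top' (hf.pow_const p) hI
      filter_upwards [h1] with y hy
      by_contra hcon
      rw [not_lt, top_le_iff] at hcon
      rw [hcon, ENNReal.top_rpow_of_pos (by linarith)] at hy
      exact absurd hy (lt_irrefl _)
    set g : Vec (d + 1) → ℝ := fun y => (f y).toReal with hg
    have hge : (fun y => ‖g y‖ₑ) =ᵐ[volume] f := by
      filter_upwards [hfin] with y hy
      rw [hg]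
      simp only
      rw [Real.enorm_eq_ofReal ENNReal.toReal_nonneg, ENNReal.ofReal_toReal hy.ne]
    have hk : ∀ e : Vec (d + 1), kakeyaMax δ g e = Pool.Agent.W46.HM.kmax δ f e := by
      intro e
      unfold kakeyaMax Pool.Agent.W46.HM.kmax
      refine iSup_congr fun a => ?_
      congr 1
      exact lintegral_congr_ae (ae_restrict_of_ae hge)
    have h1 := h δ hδ hδ1 g hf.ennreal_toReal l hl
    simp only [hk] at h1
    have h2 : ∫⁻ y, ‖g y‖ₑ ^ p = ∫⁻ y, f y ^ p := by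
      refine lintegral_congr_ae ?_
      filter_upwards [hge] with y hy
      rw [hy]
    rw [h2] at h1
    have en : ((d + 1 : ℕ) : ℝ) - 1 = d := by push_cast; ring
    rw [mul_assoc (max C 1), expo hd hp hδ hl]
    rw [en] at h1 ⊢
    refine h1.trans ?_
    gcongr
    exact le_max_left _ _

theorem loss_of_strong {d : ℕ} (hd : 1 ≤ d)
    (h : ∀ p : ℝ, 1 < p → p < ((d + 1 : ℕ) : ℝ) → Strong (d + 1) p) : MaximalLoss (d + 1) := by
  intro ε hε
  have hd0 : (0 : ℝ) < d := by exact_mod_cast hd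
  set c : ℝ := 1 + ε / d with hc
  have hc1 : 1 < c := by
    have : 0 < ε / d := by positivity
    linarith
  have hc0 : 0 < c := by linarith
  have hp : 1 < 1 + (d : ℝ) / c := by
    have : 0 < (d : ℝ) / c := by positivity
    linarith
  have hpn : 1 + (d : ℝ) / c < ((d + 1 : ℕ) : ℝ) := by
    have : (d : ℝ) / c < d := div_lt_self hd0 hc1
    push_cast
    linarith
  obtain ⟨C, hC⟩ := h _ hp hpn
  refine ⟨max C 0, fun δ hδ hδ1 f hf => ?_⟩
  have hf' : AEMeasurable (fun y => ‖f y‖ₑ) volume := hf.enorm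
  have key := Pool.Agent.Y254.EL.crit_of_sub (d := d) hc1 hd (C := max C 0) hδ hδ1 ?_
    (fun y => ‖f y‖ₑ) hf' (fun x => enorm_ne_top)
  · have e1 : (((d + 1 : ℕ) : ℝ)) = (d : ℝ) + 1 := by push_cast; ring
    rw [e1]
    refine (show _ ≤ _ from key).trans ?_
    refine mul_le_mul_left ?_ _
    apply ENNReal.ofReal_le_ofReal
    refine mul_le_mul_of_nonneg_left ?_ (le_max_right _ _)
    apply Real.rpow_le_rpow_of_exponent_ge hδ hδ1.le
    have h1 : (d : ℝ) - (d : ℝ) / c ≤ ε := by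
      have h2 : (d : ℝ) - (d : ℝ) / c = ε / c := by
        rw [hc]
        field_simp
        ring
      rw [h2]
      exact div_le_self hε.le hc1.le
    linarith
  · intro g hg hgt
    have h1 := hC δ hδ hδ1 (fun y => (g y).toReal) hg.ennreal_toReal
    have h3 : ∀ y, ‖(g y).toReal‖ₑ = g y := fun y => by
      rw [Real.enorm_eq_ofReal ENNReal.toReal_nonneg, ENNReal.ofReal_toReal (hgt y)]
    have hk : ∀ e : Vec (d + 1), kakeyaMax δ (fun y => (g y).toReal) e =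
        Pool.Agent.W46.HM.kmax δ g e := by
      intro e
      unfold kakeyaMax Pool.Agent.W46.HM.kmax
      simp only [h3]
      rfl
    simp only [hk, h3] at h1
    refine h1.trans ?_
    have e1 : -(((d + 1 : ℕ) : ℝ) - (1 + (d : ℝ) / c)) = -((d : ℝ) - (d : ℝ) / c) := by
      push_cast
      ring
    rw [e1]
    gcongr
    exact le_max_left _ _

theorem strong_of_weak {d : ℕ} (hd : 1 ≤ d) {p : ℝ} (hp : 1 < p) (hpn : p < ((d + 1 : ℕ) : ℝ))
    (h : Weak (d + 1) p) : Strong (d + 1) p := by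
  refine strong_of hd hp (Pool.Agent.Y244.HM.strongP hd ?_ (weakP_of hd hp h))
  rw [one_lt_div (by linarith)]
  push_cast at hpn
  linarith

theorem KM_of_loss {d : ℕ} (h : MaximalLoss (d + 1)) (ε : ℝ) (hε : 0 < ε) :
    ∃ C : ℝ, 0 ≤ C ∧ Pool.Agent.Y254.EL.KM d ε C := by
  obtain ⟨C, hC⟩ := h ε hε
  refine ⟨max C 0, le_max_right _ _, fun δ hδ hδ1 f hf hft => ?_⟩
  have h1 := hC δ hδ hδ1 (fun y => (f y).toReal) hf.ennreal_toReal.aemeasurable
  have h3 : ∀ y, ‖(f y).toReal‖ₑ = f y := fun y => by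
    rw [Real.enorm_eq_ofReal ENNReal.toReal_nonneg, ENNReal.ofReal_toReal (hft y)]
  have hk : ∀ e : Vec (d + 1), kakeyaMax δ (fun y => (f y).toReal) e =
      Pool.Agent.W46.HM.kmax δ f e := by
    intro e
    unfold kakeyaMax Pool.Agent.W46.HM.kmax
    simp only [h3]
    rfl
  simp only [hk, h3] at h1
  have e1 : (((d + 1 : ℕ) : ℝ)) = (d : ℝ) + 1 := by push_cast; ring
  rw [e1] at h1
  refine h1.trans ?_
  gcongr
  exact le_max_left _ _

theorem weak_of_tube {d : ℕ} (hd : 1 ≤ d) {p : ℝ} (hp : 1 < p) {C : ℝ}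
    (hC : Pool.Agent.Y254.EL.EuF d (p / (p - 1)) C) : Weak (d + 1) p := by
  have hd0 : (0 : ℝ) < d := by exact_mod_cast hd
  have hp1 : 0 < p - 1 := by linarith
  have hp1' : p - 1 ≠ 0 := hp1.ne'
  apply weak_of hd hp
  have hq : 1 + (d : ℝ) / (p - 1) / d = p / (p - 1) := by
    field_simp
    ring
  refine Pool.Agent.Y244.WR.weakQ hd (by positivity) ?_ Pool.Agent.W131.HM.CAP Pool.Agent.W131.HM.VOL
  refine ⟨max C 1, by positivity, fun δ hδ hδ1 ι _ a e he hsep => ?_⟩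
  rw [hq]
  refine (show _ ≤ _ from hC δ hδ hδ1 ι a e he hsep).trans ?_
  apply ENNReal.ofReal_le_ofReal
  rw [Real.rpow_natCast, mul_assoc]
  gcongr
  exact le_max_left _ _

theorem max_of_hub {d : ℕ} (hd : 1 ≤ d) (h : Pool.Agent.N249.KE.Hub d) : MaximalFree (d + 1) := by
  intro p hp hpn
  have hd0 : (0 : ℝ) < d := by exact_mod_cast hd
  apply strong_of_weak hd hp hpn
  obtain ⟨C, -, hC⟩ := h (p / (p - 1)) (by
    rw [lt_div_iff₀ (by linarith)]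
    push_cast at hpn
    have h2 : (p - 1) / d < 1 := by
      rw [div_lt_one hd0]
      linarith
    have h3 : (1 + 1 / (d : ℝ)) * (p - 1) = (p - 1) + (p - 1) / d := by ring
    rw [h3]
    linarith)
  exact weak_of_tube hd hp hC

theorem hub_of_max {d : ℕ} (hd : 2 ≤ d) (h : MaximalLoss (d + 1)) : Pool.Agent.N249.KE.Hub d := by
  intro q hq
  exact Pool.Agent.Y254.EL.euF_of_euL hd le_rfl hq
    (fun ε hε => Pool.Agent.Y254.EL.euL_of_KM (by omega) (KM_of_loss h) ε hε)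

theorem crit_all {d : ℕ} (hd : 1 ≤ d) (h : Subfamilies d) {σ : ℝ} (hσ : 0 < σ) (hσ1 : σ ≤ 1)
    (κ ε : ℝ) (hε : 0 < ε) : ∃ C : ℝ, 0 ≤ C ∧ Pool.Agent.N249.KE.Crit d σ κ ε C := by
  have hd0 : (0 : ℝ) < d := by exact_mod_cast hd
  refine Pool.Agent.N249.KE.crit_of_intB hd (fun c hc σ hσ hσ1 => ?_) hσ hσ1 κ ε hε
  obtain ⟨C, hC⟩ := h (1 + c / d) σ (by gcongr) hσ hσ1
  refine ⟨max C 1, by positivity, fun N hN ι _ ω f a hω hsep hf => ?_⟩
  have h1 := hC N hN ι ω f hω hsep hf a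
  have e1 : ∀ y, ‖boxSum N ω f a y‖ₑ = Pool.Agent.H810R3.Tub.Fb N ω f a y := fun y =>
    Pool.Agent.H810R3.Tub.enorm_sum_box N ω f a y
  simp only [e1] at h1
  refine h1.trans (ENNReal.ofReal_le_ofReal ?_)
  have e2 : 1 + c / (d : ℝ) - 1 / (d : ℝ) = 1 + (c - 1) / (d : ℝ) := by ring
  rw [e2]
  gcongr
  exact le_max_left _ _

theorem subfamilies_of_hub {d : ℕ} (hd : 1 ≤ d) (h : Pool.Agent.N249.KE.Hub d) : Subfamilies d := by
  intro q σ hq hσ hσ1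
  have hd0 : (0 : ℝ) < d := by exact_mod_cast hd
  set c : ℝ := (q - 1) * d with hc
  have hqc : 1 + c / d = q := by rw [hc]; field_simp; ring
  have hc1 : 1 < c := by
    have : 1 / (d : ℝ) < q - 1 := by linarith
    rwa [div_lt_iff₀ hd0] at this
  obtain ⟨E, hE, hI⟩ := Pool.Agent.N249.KE.intB_of_hub hd h hc1 σ hσ hσ1
  refine ⟨E, fun N hN ι _ ω f hω hsep hf a => ?_⟩
  have h1 := hI N hN ι ω f a hω hsep hf
  have e1 : ∀ y, ‖boxSum N ω f a y‖ₑ = Pool.Agent.H810R3.Tub.Fb N ω f a y := fun y =>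
    Pool.Agent.H810R3.Tub.enorm_sum_box N ω f a y
  simp only [e1]
  rw [hqc] at h1
  have e2 : q - 1 / (d : ℝ) = 1 + (c - 1) / (d : ℝ) := by
    rw [hc]
    field_simp
    ring
  rw [e2]
  exact h1

/-- **Equivalent forms of Q1 in `ℝ^n`, `n = d + 1 ≥ 3`.** -/
theorem result (d : ℕ) (hd : 2 ≤ d) :
    (∃ κ₀ : ℝ, 0 < κ₀ ∧ ∀ σ κ : ℝ, 0 < σ → σ ≤ 1 / (8 * (d : ℝ)) → 0 < κ → κ ≤ κ₀ →
      (WithLosses d ↔ OneExponent d σ κ)) ∧
    (WithLosses d ↔ LossFree d) ∧ (WithLosses d ↔ Subfamilies d) ∧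
    (WithLosses d ↔ MaximalLoss (d + 1)) ∧ (WithLosses d ↔ MaximalFree (d + 1)) := by
  have hd1 : 1 ≤ d := by omega
  have hdr : (2 : ℝ) ≤ d := by exact_mod_cast hd
  have hd0 : (0 : ℝ) < d := by linarith
  have hs8 : 1 / (8 * (d : ℝ)) ≤ 1 := by rw [div_le_one (by positivity)]; linarith
  have hs80 : 0 < 1 / (8 * (d : ℝ)) := by positivity
  obtain ⟨κ₀, hκ₀, hhub⟩ := Pool.Agent.N249.KE.hub_of_crit hd
  -- from one exponent
  have hone : ∀ σ κ : ℝ, 0 < σ → σ ≤ 1 / (8 * (d : ℝ)) → κ ≤ κ₀ → OneExponent d σ κ →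
      Pool.Agent.N249.KE.Hub d := by
    intro σ κ hσ hσ8 hκκ h
    apply hhub
    intro ε hε
    obtain ⟨C, hC, hcr⟩ := Pool.Agent.N249.KE.crit_of_inq (d := d) (κ := κ) hd1 hσ (hσ8.trans hs8)
      (fun ε hε => h ε hε) ε hε
    refine ⟨C, hC, fun N hN ι _ ω f a hω hsep hcard hf => ?_⟩
    have hN0 : 0 < N := by linarith
    refine hcr N hN ι ω f a hω (fun i j hij => le_trans (by gcongr) (hsep i j hij)) ?_ hf
    exact le_trans (by gcongr) hcard
  have hW1 : WithLosses d → ∀ σ κ : ℝ, 0 < σ → σ ≤ 1 → 0 < κ → OneExponent d σ κ := by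
    intro h σ κ hσ hσ1 hκ ε hε
    obtain ⟨C, hC⟩ := h ε σ κ hε hσ hσ1 hκ
    refine ⟨C, fun N hN ι _ ω f hcp a => hC N hN ι ω f hcp a _ ?_⟩
    rw [← ENNReal.ofReal_one]
    apply ENNReal.ofReal_le_ofReal
    have : 0 < 1 / (d : ℝ) := by positivity
    linarith
  have hWH : WithLosses d → Pool.Agent.N249.KE.Hub d := fun h =>
    hone _ κ₀ hs80 le_rfl le_rfl (hW1 h _ κ₀ hs80 hs8 hκ₀)
  have hcW : (∀ σ κ : ℝ, 0 < σ → σ ≤ 1 → 0 < κ → ∀ ε : ℝ, 0 < ε →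
      ∃ C : ℝ, 0 ≤ C ∧ Pool.Agent.N249.KE.Crit d σ κ ε C) → WithLosses d := by
    intro h ε σ κ hε hσ hσ1 hκ
    exact Pool.Agent.N249.KE.loss_of_crit (d := d) hd1 hκ (h σ κ hσ hσ1 hκ) ε hε
  have hSW : Subfamilies d → WithLosses d := fun h =>
    hcW fun σ κ hσ hσ1 _ ε hε => crit_all hd1 h hσ hσ1 κ ε hε
  have hHW : Pool.Agent.N249.KE.Hub d → WithLosses d := fun h => hSW (subfamilies_of_hub hd1 h)
  have hFW : LossFree d → WithLosses d := fun h =>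
    hcW fun σ κ hσ hσ1 hκ ε hε => Pool.Agent.N249.KE.crit_of_free (d := d) hd1 hσ hσ1 (fun q hq => by
      obtain ⟨C, hC⟩ := h q σ κ hq hσ hσ1 hκ
      exact ⟨C, fun N hN ι _ ω f hcp a => hC N hN ι ω f hcp a _ le_rfl⟩) ε hε
  refine ⟨⟨κ₀, hκ₀, fun σ κ hσ hσ8 hκ hκκ => ⟨fun h => hW1 h σ κ hσ (hσ8.trans hs8) hκ,
      fun h => hHW (hone σ κ hσ hσ8 hκκ h)⟩⟩, ⟨fun h => ?_, hFW⟩,
    ⟨fun h => subfamilies_of_hub hd1 (hWH h), hSW⟩,
    ⟨fun h => loss_of_strong hd1 (max_of_hub hd1 (hWH h)), fun h => hHW (hub_of_max hd h)⟩,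
    ⟨fun h => max_of_hub hd1 (hWH h), fun h => hHW (hub_of_max hd (loss_of_strong hd1 h))⟩⟩
  intro q σ κ hq hσ hσ1 hκ
  exact Pool.Agent.N249.KE.free_of_hub hd (hWH h) hσ hσ1 hκ hq

end Pool.Agent.Results.MP_ac5134_an.EquivalentForms
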