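import Pool.Agent.N250.GAP.BoxI

set_option autoImplicit false

/-!
# MP_ac5134: the inequality for translates with additive structure, without loss for `p > n/(n-1)`

Work in `ℝ^n = ℝ^d × ℝ`, `n = d + 1`, with its Euclidean norm (`Space d`), and let `P` be the
paraboloid `{(ω, |ω|²)}`, `|ω| ≤ 1`.  The box dual to the cap at `ω` is `box N (nor ω) f 0`: its long
side `N²` is in the direction of the unit normal `nor ω = (-2ω, 1)/√(1+4|ω|²)` and its other sides `N`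
are in the directions of an arbitrary orthonormal frame `f` of the orthogonal complement.  Every
translate of the box at `ω` can be given by the point `(β, 0)` where its axis meets the hyperplane of
height `0` and by the height `s` of its centre.

The caps are a `σ/N`-separated family with at least `κ N^d` members.  The translates have additive
structure if the pairs `(ω i, β i) ∈ ℝ^d × ℝ^d` lie in a progression of rank `r`

  `(ω₀, β₀) + ∑ j, k j • (W j, A j)`,    `k j ∈ {0, 1, ..., L j - 1}`,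

of size `∏ j, L j ≤ K · (number of the caps)`.  There is no condition on the vectors `W j`, `A j`; the
progression need not be proper, its own cap centres need not be separated, and the heights `s i` are
arbitrary.  Example: `N = b ^ m`, the caps at the points `ω = ∑ l, b⁻ˡ k l` of the unit ball with the
digits `k l ∈ {0, ..., b - 1}^d`, `1 ≤ l ≤ m`, and the positions `β = ∑ l, A l (k l)`, where `A l` are
any `d × d` matrices (translates of the type of Besicovitch sets, with a bounded number `m` of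
digits): here `r = m d` and `K` depends only on `d`.

For such translates the conjectured comparison with the centred family is proved for all `p` in
`[1, ∞]` with the constant `C N^ε`, and for all `p ≥ q`, for any given `q > n/(n-1)`, with a constant
`C` which does not depend on `N`.
-/

open MeasureTheory Set Filter Topology ENNReal NNReal Metric

namespace Pool.Agent.Results.MP_ac5134_an.ProgressionTranslates

/-- Euclidean space `ℝ^d`. -/
abbrev Vec (d : ℕ) : Type := EuclideanSpace ℝ (Fin d)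

/-- Euclidean space `ℝ^{d+1}`, written as `ℝ^d × ℝ` with the Euclidean norm. -/
abbrev Space (d : ℕ) : Type := WithLp 2 (Vec d × ℝ)

/-- The unit normal `(-2ω, 1)/√(1+4|ω|²)` of the paraboloid at the point over `ω`. -/
noncomputable def nor {d : ℕ} (ω : Vec d) : Space d :=
  (√(1 + ‖-(2 : ℝ) • ω‖ ^ 2))⁻¹ • WithLp.toLp 2 (-(2 : ℝ) • ω, (1:ℝ))

/-- The box with centre `a`, with one side of length `N²` in the direction `e` and with sides of length
`N` in the directions `f j`. -/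
def box {d : ℕ} (N : ℝ) (e : Space d) (f : Fin d → Space d) (a : Space d) : Set (Space d) :=
  {y | |inner ℝ e (y - a)| ≤ N ^ 2 / 2 ∧ ∀ j, |inner ℝ (f j) (y - a)| ≤ N / 2}

/-- The caps have centres `ω i` in the closed unit ball, `σ/N`-separated and at least `κ N^d` in
number, and `f i` is an orthonormal frame of the orthogonal complement of the normal at `ω i`. -/
def Caps {d : ℕ} {ι : Type} [Fintype ι] (σ κ N : ℝ) (ω : ι → Vec d) (f : ι → Fin d → Space d) : Prop :=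
  (∀ i, ‖ω i‖ ≤ 1) ∧ (∀ i j, i ≠ j → σ / N ≤ ‖ω i - ω j‖) ∧ κ * N ^ d ≤ (Fintype.card ι : ℝ) ∧
    ∀ i, Orthonormal ℝ (Fin.cons (nor (ω i)) (f i) : Fin (d + 1) → Space d)

/-- The sum of the indicators of the boxes of the caps with centres `a i`. -/
noncomputable def boxSum {d : ℕ} {ι : Type} [Fintype ι] (N : ℝ) (ω : ι → Vec d)
    (f : ι → Fin d → Space d) (a : ι → Space d) (y : Space d) : ℝ :=
  ∑ i, (box N (nor (ω i)) (f i) (a i)).indicator (fun _ => (1 : ℝ)) y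

/-- The pairs `(ω i, β i)`, `i ∈ ι`, lie in a progression of rank `r` of size at most `K · #ι`. -/
def InProgression (r : ℕ) (K : ℝ) {d : ℕ} {ι : Type} [Fintype ι] (ω β : ι → Vec d) : Prop :=
  ∃ (L : Fin r → ℕ) (ω₀ β₀ : Vec d) (W A : Fin r → Vec d),
    ((∏ j, L j : ℕ) : ℝ) ≤ K * Fintype.card ι ∧
    ∀ i, ∃ k : Fin r → ℕ, (∀ j, k j < L j) ∧
      ω i = ω₀ + ∑ j, (k j : ℝ) • W j ∧ β i = β₀ + ∑ j, (k j : ℝ) • A j

theorem InProgression.succ {r : ℕ} {K : ℝ} {d : ℕ} {ι : Type} [Fintype ι] {ω β : ι → Vec d}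
    (h : InProgression r K ω β) : InProgression (r + 1) K ω β := by
  obtain ⟨L, ω₀, β₀, W, A, hL, h⟩ := h
  refine ⟨Fin.cons 1 L, ω₀, β₀, Fin.cons 0 W, Fin.cons 0 A, ?_, ?_⟩
  · rw [Fin.prod_univ_succ]
    simpa using hL
  · intro i
    obtain ⟨k, hk, h1, h2⟩ := h i
    refine ⟨Fin.cons 0 k, ?_, ?_, ?_⟩
    · intro j
      refine Fin.cases ?_ (fun j => ?_) j
      · simp
      · simpa using hk j
    · rw [Fin.sum_univ_succ]
      simpa using h1
    · rw [Fin.sum_univ_succ]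
      simpa using h2

theorem InProgression.mono {r : ℕ} {K K' : ℝ} (hK : K ≤ K') {d : ℕ} {ι : Type} [Fintype ι] {ω β : ι → Vec d}
    (h : InProgression r K ω β) : InProgression r K' ω β := by
  obtain ⟨L, ω₀, β₀, W, A, hL, h⟩ := h
  refine ⟨L, ω₀, β₀, W, A, hL.trans ?_, h⟩
  gcongr

/-- The centre, at the height `s`, of the translate of the box at `ω` with the position `β`. -/
def centre {d : ℕ} (ω β : Vec d) (s : ℝ) : Space d := WithLp.toLp 2 (β + s • (-(2 : ℝ) • ω), s)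

/-- The comparison of the `L^p` norms with the constant `C`. -/
def Ineq {d : ℕ} {ι : Type} [Fintype ι] (p : ℝ≥0∞) (C N : ℝ) (ω β : ι → Vec d) (s : ι → ℝ)
    (f : ι → Fin d → Space d) : Prop :=
  eLpNorm (boxSum N ω f (fun i => centre (ω i) (β i) (s i))) p volume ≤
    ENNReal.ofReal C * eLpNorm (boxSum N ω f 0) p volume

/-- the integral estimate, for the families of the theorem -/
theorem int_est (d : ℕ) (hd : 1 ≤ d) (r : ℕ) {σ : ℝ} (hσ : 0 < σ) (hσ1 : σ ≤ 1) (K : ℝ) {q : ℝ}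
    (hq : 1 < (q - 1) * d) : ∃ E : ℝ, 0 < E ∧
    ∀ N : ℝ, 1 ≤ N → ∀ (ι : Type) [Fintype ι] [Nonempty ι] (ω β : ι → Vec d) (s : ι → ℝ)
      (f : ι → Fin d → Space d),
    (∀ i, ‖ω i‖ ≤ 1) → (∀ i j, i ≠ j → σ / N ≤ ‖ω i - ω j‖) →
    (∀ i, Orthonormal ℝ (Fin.cons (nor (ω i)) (f i) : Fin (d + 1) → Space d)) →
    InProgression r K ω β →
    ∫⁻ y, Pool.Agent.H810R3.Tub.Fb N ω f (fun i => WithLp.toLp 2 (β i + s i • (-(2 : ℝ) • ω i), s i)) y ^ q ≤
      ENNReal.ofReal (E * N ^ (d + 2) * (Fintype.card ι : ℝ) ^ (q - 1 / (d : ℝ))) := by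
  obtain ⟨E, hE, hmain⟩ := Pool.Agent.N250.GAP.box_int (r := r + 1) (by omega) hd hq (le_max_left 1 K) hσ hσ1
  refine ⟨E, hE, ?_⟩
  intro N hN ι _ _ ω β s f hω hsep hf hP
  obtain ⟨L, ω₀, β₀, W, A, hL, h⟩ := (hP.succ).mono (le_max_right 1 K)
  choose k hk hkv hkβ using h
  have hsum : ∀ (W : Fin (r + 1) → Vec d) (i j : ι),
      ((∑ l, (k j l : ℝ) • W l) - ∑ l, (k i l : ℝ) • W l : Vec d).ofLp =
      (Matrix.of fun (c : Fin d) (l : Fin (r + 1)) => (W l).ofLp c).mulVec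
        (fun l => ((((fun l => (k j l : ℤ)) - fun l => (k i l : ℤ)) l : ℤ) : ℝ)) := by
    intro W i j
    ext c
    rw [← Finset.sum_sub_distrib]
    simp only [WithLp.ofLp_sum, Finset.sum_apply, WithLp.ofLp_sub, WithLp.ofLp_smul, Pi.sub_apply, Pi.smul_apply,
      smul_eq_mul, Matrix.mulVec, dotProduct, Matrix.of_apply, Int.cast_sub, Int.cast_natCast]
    apply Finset.sum_congr rfl
    intro l _
    ring
  exact hmain N hN ι ω β s f L (Matrix.of fun (c : Fin d) (l : Fin (r + 1)) => (W l).ofLp c)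
    (Matrix.of fun (c : Fin d) (l : Fin (r + 1)) => (A l).ofLp c) (fun i l => (k i l : ℤ)) hω hsep hf
    (fun i j => ⟨Int.natCast_nonneg _, by exact_mod_cast hk i j⟩)
    (by
      intro i j
      rw [hkv i, hkv j, add_sub_add_left_eq_sub]
      exact hsum W i j)
    (by
      intro i j
      rw [hkβ i, hkβ j, add_sub_add_left_eq_sub]
      exact hsum A i j) hL

theorem all_exponents (d : ℕ) (hd : 1 ≤ d) (r : ℕ) (σ κ : ℝ) (hσ : 0 < σ) (hσ1 : σ ≤ 1) (hκ : 0 < κ)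
    (K : ℝ) (ε : ℝ) (hε : 0 < ε) : ∃ C : ℝ, 0 < C ∧ ∀ N : ℝ, 1 ≤ N → ∀ (ι : Type) [Fintype ι]
      (ω β : ι → Vec d) (s : ι → ℝ) (f : ι → Fin d → Space d),
      Caps σ κ N ω f → InProgression r K ω β → ∀ p : ℝ≥0∞, 1 ≤ p → Ineq p (C * N ^ ε) N ω β s f := by
  have hd0 : (0 : ℝ) < (d : ℝ) := by exact_mod_cast hd
  have hd1 : (1 : ℝ) ≤ d := by exact_mod_cast hd
  set η : ℝ := min ε (1 / 2) with hη
  have hη0 : 0 < η := lt_min hε (by norm_num)
  have hηε : η ≤ ε := min_le_left _ _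
  have hη2 : η ≤ 1 / 2 := min_le_right _ _
  have hdη : 0 < (d : ℝ) - η := by linarith
  set q : ℝ := ((d : ℝ) + 1) / (d - η) with hq
  have hq1 : 1 < q := by
    rw [hq, lt_div_iff₀ hdη]
    linarith
  have hqc : 1 < (q - 1) * d := by
    have h1 : q * (d - η) = d + 1 := by
      rw [hq]
      field_simp
    nlinarith
  have hηq : d * q - d - 1 = η * q := by
    have : q * (d - η) = d + 1 := div_mul_cancel₀ _ hdη.ne'
    linarith
  obtain ⟨E, hE0, hE⟩ := int_est d hd r hσ hσ1 K hqc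
  have hw0 : 0 < Pool.Agent.H810R3.Tub.wv d := Pool.Agent.H810R3.Tub.wv_pos d
  set b₀ : ℝ := (1 + (d : ℝ)) ^ (d + 1) * Pool.Agent.H810R3.Tub.wv d with hb₀
  have hb0 : 0 < b₀ := by positivity
  set C0 : ℝ := max 1 (max (E * b₀ ^ (q - 1) * κ ^ (-(1 / (d : ℝ))))
    (E * κ ^ (-(1 / (d : ℝ))) * 2 ^ (d + 1) / Pool.Agent.H810R3.Tub.wv d)) with hC0
  have hC1 : 1 ≤ C0 := le_max_left _ _
  have hC2 : E * b₀ ^ (q - 1) * κ ^ (-(1 / (d : ℝ))) ≤ C0 := (le_max_left _ _).trans (le_max_right _ _)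
  have hC3 : E * κ ^ (-(1 / (d : ℝ))) * 2 ^ (d + 1) / Pool.Agent.H810R3.Tub.wv d ≤ C0 :=
    (le_max_right _ _).trans (le_max_right _ _)
  have hC00 : 0 < C0 := by linarith
  have hq0 : 0 < q := by linarith
  refine ⟨C0 ^ (1 / q), Real.rpow_pos_of_pos hC00 _, ?_⟩
  intro N hN ι _ ω β s f ⟨hω, hsep, hcard, hf⟩ hP p hp
  have hN0 : 0 < N := by linarith
  have hc0 : (0 : ℝ) < (Fintype.card ι : ℝ) := lt_of_lt_of_le (by positivity) hcard
  have hne : Nonempty ι := by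
    rw [← Fintype.card_pos_iff]
    exact_mod_cast hc0
  have hD1 : 1 ≤ C0 ^ (1 / q) * N ^ ε := by
    have h1 : 1 ≤ C0 ^ (1 / q) := Real.one_le_rpow hC1 (by positivity)
    have h3 : 1 ≤ N ^ ε := Real.one_le_rpow hN hε.le
    calc (1 : ℝ) = 1 * 1 := by ring
      _ ≤ C0 ^ (1 / q) * N ^ ε := by gcongr
  have hDq : (C0 ^ (1 / q) * N ^ ε) ^ q = C0 * 1 * N ^ (ε * q) := by
    rw [Real.mul_rpow (by positivity) (by positivity),
      ← Real.rpow_mul hC00.le, ← Real.rpow_mul hN0.le, one_div_mul_cancel hq0.ne', Real.rpow_one, mul_one]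
  have hQi := hE N hN ι ω β s f hω hsep hf hP
  have hQi' : ∫⁻ y, Pool.Agent.H810R3.Tub.Fb N ω f
      (fun i => WithLp.toLp 2 (β i + s i • (-(2 : ℝ) • ω i), s i)) y ^ q ≤
      ENNReal.ofReal (E * 1 * N ^ (d + 2) * (Fintype.card ι : ℝ) ^ (q - 1 / (d : ℝ))) := by
    rw [mul_one]
    exact hQi
  refine Pool.Agent.H810R3.Tub.compare d hN hq1 (by positivity) hD1 ω f hf _ hQi' ?_ ?_ p hp
  · rw [hDq]
    exact Pool.Agent.H810R3.Tub.arith1 hd0 hE0 one_pos hq1 hηq hηε hN hκ hcard hb0 hC2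
  · rw [hDq]
    exact Pool.Agent.H810R3.Tub.arith2 hd0 hE0 one_pos hq1 hε hN hκ hcard hw0 hC3

theorem large_exponents (d : ℕ) (hd : 1 ≤ d) (r : ℕ) (σ κ : ℝ) (hσ : 0 < σ) (hσ1 : σ ≤ 1) (hκ : 0 < κ)
    (K : ℝ) (q : ℝ) (hq : 1 < (q - 1) * d) : ∃ C : ℝ, 0 < C ∧ ∀ N : ℝ, 1 ≤ N →
      ∀ (ι : Type) [Fintype ι] (ω β : ι → Vec d) (s : ι → ℝ) (f : ι → Fin d → Space d),
      Caps σ κ N ω f → InProgression r K ω β → ∀ p : ℝ≥0∞, ENNReal.ofReal q ≤ p → Ineq p C N ω β s f := by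
  have hd0 : (0 : ℝ) < (d : ℝ) := by exact_mod_cast hd
  have hq1 : 1 < q := by
    by_contra h
    push Not at h
    nlinarith
  have hq0 : 0 < q := by linarith
  obtain ⟨E, hE0, hE⟩ := int_est d hd r hσ hσ1 K hq
  have hw0 : 0 < Pool.Agent.H810R3.Tub.wv d := Pool.Agent.H810R3.Tub.wv_pos d
  set C0 : ℝ := max 1 (E * κ ^ (-(1 / (d : ℝ))) * 2 ^ (d + 1) / Pool.Agent.H810R3.Tub.wv d) with hC0
  have hC1 : 1 ≤ C0 := le_max_left _ _
  have hC3 : E * κ ^ (-(1 / (d : ℝ))) * 2 ^ (d + 1) / Pool.Agent.H810R3.Tub.wv d ≤ C0 := le_max_right _ _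
  have hC00 : 0 < C0 := by linarith
  refine ⟨C0 ^ (1 / q), Real.rpow_pos_of_pos hC00 _, ?_⟩
  intro N hN ι _ ω β s f ⟨hω, hsep, hcard, hf⟩ hP p hp
  have hN0 : 0 < N := by linarith
  have hc0 : (0 : ℝ) < (Fintype.card ι : ℝ) := lt_of_lt_of_le (by positivity) hcard
  have hne : Nonempty ι := by
    rw [← Fintype.card_pos_iff]
    exact_mod_cast hc0
  have hDq : (C0 ^ (1 / q)) ^ q = C0 := by
    rw [← Real.rpow_mul hC00.le, one_div_mul_cancel hq0.ne', Real.rpow_one]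
  have hQi := hE N hN ι ω β s f hω hsep hf hP
  have hD1 : 1 ≤ C0 ^ (1 / q) := Real.one_le_rpow hC1 (by positivity)
  refine Pool.Agent.R134.Kak.compare_large d hN hq1 hD1 ω f hf _ hQi ?_ p hp
  exact Pool.Agent.R134.Kak.arith_large hd0 hE0 hN hκ hcard hw0 (by rw [hDq]; exact hC3)

/-- **The comparison for translates with additive structure**: for all `p` in `[1, ∞]` with the
constant `C N^ε`, for all `p ≥ q > n/(n-1)` with a constant independent of `N`. -/
theorem result (d : ℕ) (hd : 1 ≤ d) (r : ℕ) (σ κ : ℝ) (hσ : 0 < σ) (hσ1 : σ ≤ 1) (hκ : 0 < κ) (K : ℝ) :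
    (∀ ε : ℝ, 0 < ε → ∃ C : ℝ, 0 < C ∧ ∀ N : ℝ, 1 ≤ N → ∀ (ι : Type) [Fintype ι]
      (ω β : ι → Vec d) (s : ι → ℝ) (f : ι → Fin d → Space d),
      Caps σ κ N ω f → InProgression r K ω β → ∀ p : ℝ≥0∞, 1 ≤ p → Ineq p (C * N ^ ε) N ω β s f) ∧
    (∀ q : ℝ, ((d : ℝ) + 1) / d < q → ∃ C : ℝ, 0 < C ∧ ∀ N : ℝ, 1 ≤ N → ∀ (ι : Type) [Fintype ι]
      (ω β : ι → Vec d) (s : ι → ℝ) (f : ι → Fin d → Space d),
      Caps σ κ N ω f → InProgression r K ω β → ∀ p : ℝ≥0∞, ENNReal.ofReal q ≤ p → Ineq p C N ω β s f) := by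
  have hd0 : (0 : ℝ) < (d : ℝ) := by exact_mod_cast hd
  refine ⟨fun ε hε => all_exponents d hd r σ κ hσ hσ1 hκ K ε hε, fun q hq => ?_⟩
  apply large_exponents d hd r σ κ hσ hσ1 hκ K q
  rw [div_lt_iff₀ hd0] at hq
  linarith

end Pool.Agent.Results.MP_ac5134_an.ProgressionTranslates
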