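import Pool.Agent.N3.ST.T

set_option autoImplicit false

/-!
# MP_ac5134: the volume form for translates with large additive energy

Work in `ℝ^n = ℝ^d × ℝ`, `n = d + 1 ≥ 2`, with its Euclidean norm (`Space d`), and let `P` be the
paraboloid `{(ω, |ω|²)}`, `|ω| ≤ 1`.  The box dual to the cap at `ω` is `box N (nor ω) f 0`: its long
side `N²` is in the direction of the unit normal `nor ω = (-2ω, 1)/√(1+4|ω|²)` and its other sides `N`
are in the directions of an arbitrary orthonormal frame `f` of the orthogonal complement.  Every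
translate of the box at `ω` can be given by the point `(β, 0)` where its axis meets the hyperplane of
height `0` and by the height `s` of its centre.

The additive energy of the family (`energy`) is the number of the quadruples of indices
`(i, j, k, l)` with `|ω i + ω j - ω k - ω l| ≤ 1/N` and `|β i + β j - β k - β l| ≤ N`.  It is at most
a constant (depending on `σ` and `d`) times `M ^ 3`, `M` the number of the boxes.  The theorem: for
every `ε > 0` there is `η > 0` such that if the energy is at least `M ^ (3 - η)`, then the union of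
the `M` boxes has measure at least `c M ^ (-ε)` times the sum of the measures of the boxes.  The
heights of the centres are arbitrary (in `[-S N², S N²]`), the number `M` of the boxes is arbitrary
(there may be far fewer than `N ^ d` boxes), and nothing else is assumed on the positions.
-/

open MeasureTheory Set

namespace Pool.Agent.Results.MP_ac5134_an.VolumeLargeEnergy

/-- Euclidean space `ℝ^d`. -/
abbrev Vec (d : ℕ) : Type := EuclideanSpace ℝ (Fin d)

/-- Euclidean space `ℝ^{d+1}`, written as `ℝ^d × ℝ` with the Euclidean norm. -/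
abbrev Space (d : ℕ) : Type := WithLp 2 (Vec d × ℝ)

/-- The unit normal `(-2ω, 1)/√(1+4|ω|²)` of the paraboloid at the point over `ω`. -/
noncomputable def nor {d : ℕ} (ω : Vec d) : Space d :=
  (√(1 + ‖-(2 : ℝ) • ω‖ ^ 2))⁻¹ • WithLp.toLp 2 (-(2 : ℝ) • ω, (1:ℝ))

/-- The box with centre `a`, with one side of length `N²` in the direction `e` and with sides of length
`N` in the directions `f j`. -/
def box {d : ℕ} (N : ℝ) (e : Space d) (f : Fin d → Space d) (a : Space d) : Set (Space d) :=
  {y | |inner ℝ e (y - a)| ≤ N ^ 2 / 2 ∧ ∀ j, |inner ℝ (f j) (y - a)| ≤ N / 2}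

/-- The centre, at the height `s`, of the translate of the box at `ω` with the position `β`. -/
def centre {d : ℕ} (ω β : Vec d) (s : ℝ) : Space d := WithLp.toLp 2 (β + s • (-(2 : ℝ) • ω), s)

/-- The centres `ω i` of the caps lie in the closed unit ball and are `σ/N`-separated, and `f i` is an
orthonormal frame of the orthogonal complement of the normal at `ω i`. -/
def Caps {d : ℕ} {ι : Type} (σ N : ℝ) (ω : ι → Vec d) (f : ι → Fin d → Space d) : Prop :=
  (∀ i, ‖ω i‖ ≤ 1) ∧ (∀ i j, i ≠ j → σ / N ≤ ‖ω i - ω j‖) ∧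
    ∀ i, Orthonormal ℝ (Fin.cons (nor (ω i)) (f i) : Fin (d + 1) → Space d)

/-- The additive energy of the pairs (cap, position) at the scales `1/N` and `N`. -/
noncomputable def energy {d : ℕ} {ι : Type} (N : ℝ) (ω β : ι → Vec d) : ℕ :=
  Set.ncard {x : ι × ι × ι × ι | ‖ω x.1 + ω x.2.1 - ω x.2.2.1 - ω x.2.2.2‖ ≤ 1 / N ∧
    ‖β x.1 + β x.2.1 - β x.2.2.1 - β x.2.2.2‖ ≤ N}

/-- **The volume form for translates with large additive energy**: `|⋃ T i| ≥ c M ^ (-ε) ∑ |T i|`
(each of the `M` boxes has the measure `N ^ (d + 2)`). -/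
theorem result (d : ℕ) (hd : 1 ≤ d) (σ S ε : ℝ) (hσ : 0 < σ) (hσ1 : σ ≤ 1) (hS : 1 ≤ S) (hε : 0 < ε)
    (hε1 : ε < 1) : ∃ η c : ℝ, 0 < η ∧ 0 < c ∧ ∀ N : ℝ, 1 ≤ N → ∀ (ι : Type) [Fintype ι]
      (ω β : ι → Vec d) (s : ι → ℝ) (f : ι → Fin d → Space d),
      Caps σ N ω f → (∀ i, |s i| ≤ S * N ^ 2) →
      (Fintype.card ι : ℝ) ^ (3 - η) ≤ (energy N ω β : ℝ) →
      ENNReal.ofReal (c * N ^ (d + 2) * (Fintype.card ι : ℝ) ^ (1 - ε)) ≤
        volume (⋃ i, box N (nor (ω i)) (f i) (centre (ω i) (β i) (s i))) := by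
  obtain ⟨η, c, hη, hc, h⟩ := Pool.Agent.N3.ST.T.main d hd σ S ε hσ hσ1 hS hε hε1
  exact ⟨η, c, hη, hc, fun N hN ι _ ω β s f hf hs hE => h N hN ι ω β s f hf.1 hf.2.1 hf.2.2 hs hE⟩

end Pool.Agent.Results.MP_ac5134_an.VolumeLargeEnergy
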